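import Pool.Agent.Helper22.G4.Poly
import Pool.Agent.Helper22.G4.St.F1
import Pool.Agent.Helper22.G4.St.F2

/-! # G4-F3: the graph of an edge list made from a list of vertices and a list of edges -/

namespace Pool.Agent.Helper30.G4

open Pool.Agent.Helper22.G4
open Pool.Agent.Helper89 Pool.Agent.Helper91.PolyTime

theorem mem_toEdgeList_edges {β : Type} [DecidableEq β] (L : List β) (E : List (β × β))
    (i j : Fin L.length) :
    ((i, j) : Fin L.length × Fin L.length) ∈ (toEdgeList L E).edges ↔ (L.get i, L.get j) ∈ E := by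
  unfold toEdgeList
  simp only [List.mem_flatMap, List.mem_map, List.mem_filter, decide_eq_true_eq]
  constructor
  · rintro ⟨a, _, b, ⟨_, hb⟩, hab⟩
    have h1 : a = i := congrArg Prod.fst hab
    have h2 : b = j := congrArg Prod.snd hab
    rw [← h1, ← h2]
    exact hb
  · intro h
    exact ⟨i, List.mem_finRange i, j, ⟨List.mem_finRange j, h⟩, rfl⟩

theorem toEdgeList_graph_adj {β : Type} [DecidableEq β] (L : List β) (E : List (β × β))
    (i j : Fin L.length) :
    (toEdgeList L E).graph.Adj i j ↔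
      i ≠ j ∧ ((L.get i, L.get j) ∈ E ∨ (L.get j, L.get i) ∈ E) := by
  have h1 : (toEdgeList L E).graph.Adj i j ↔
      i ≠ j ∧ (((i, j) : Fin L.length × Fin L.length) ∈ (toEdgeList L E).edges ∨
        ((j, i) : Fin L.length × Fin L.length) ∈ (toEdgeList L E).edges) :=
    SimpleGraph.fromRel_adj (V := Fin (toEdgeList L E).n)
      (fun u v => (u, v) ∈ (toEdgeList L E).edges) i j
  exact h1.trans
    (and_congr Iff.rfl (or_congr (mem_toEdgeList_edges L E i j) (mem_toEdgeList_edges L E j i)))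

theorem isGraphOf4Polytope_congr {V W : Type} {G : SimpleGraph V} {H : SimpleGraph W}
    (e : G ≃g H) : IsGraphOf4Polytope G ↔ IsGraphOf4Polytope H := by
  constructor
  · rintro ⟨d, S, hS, hd, ⟨f⟩⟩
    exact ⟨d, S, hS, hd, ⟨e.symm.trans f⟩⟩
  · rintro ⟨d, S, hS, hd, ⟨f⟩⟩
    exact ⟨d, S, hS, hd, ⟨e.trans f⟩⟩

/-- the graph on the entries of the list -/
def listGraph {β : Type} [DecidableEq β] (L : List β) (E : List (β × β)) :
    SimpleGraph {x // x ∈ L.toFinset} where
  Adj u v := u ≠ v ∧ ((u.1, v.1) ∈ E ∨ (v.1, u.1) ∈ E)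
  symm := ⟨fun _ _ h => ⟨h.1.symm, h.2.symm⟩⟩
  loopless := ⟨fun _ h => h.1 rfl⟩

/-- the numbering of the entries of a list without repetitions -/
noncomputable def getEquiv {β : Type} [DecidableEq β] (L : List β) (hL : L.Nodup) :
    Fin L.length ≃ {x // x ∈ L.toFinset} :=
  Equiv.ofBijective (fun i => ⟨L.get i, List.mem_toFinset.2 (List.get_mem L i)⟩) (by
    constructor
    · intro i j h
      have h1 : L.get i = L.get j := congrArg Subtype.val h
      exact List.nodup_iff_injective_get.1 hL h1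
    · rintro ⟨x, hx⟩
      obtain ⟨i, hi⟩ := List.mem_iff_get.1 (List.mem_toFinset.1 hx)
      exact ⟨i, Subtype.ext hi⟩)

theorem getEquiv_val {β : Type} [DecidableEq β] (L : List β) (hL : L.Nodup) (i : Fin L.length) :
    (getEquiv L hL i).1 = L.get i := rfl

/-- the graph of the edge list is the graph on the entries -/
noncomputable def toEdgeListIso {β : Type} [DecidableEq β] (L : List β) (hL : L.Nodup)
    (E : List (β × β)) : (toEdgeList L E).graph ≃g listGraph L E where
  toEquiv := getEquiv L hL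
  map_rel_iff' := by
    intro i j
    refine Iff.trans ?_ (toEdgeList_graph_adj L E i j).symm
    exact and_congr (getEquiv L hL).injective.ne_iff Iff.rfl

/-- G4-F3 -/
theorem poly_toEdgeList {β : Type} [DecidableEq β] (L : List β) (hL : L.Nodup)
    (E : List (β × β)) (adj : β → β → Prop)
    (hE : ∀ x ∈ L, ∀ y ∈ L, x ≠ y → (adj x y ↔ (x, y) ∈ E ∨ (y, x) ∈ E)) :
    IsGraphOf4Polytope (toEdgeList L E).graph ↔ ConicGraph L.toFinset adj := by
  rw [isGraphOf4Polytope_congr (toEdgeListIso L hL E)]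
  have hG : ∀ u v, (listGraph L E).Adj u v ↔ u ≠ v ∧ adj u v := by
    intro u v
    constructor
    · rintro ⟨h1, h2⟩
      exact ⟨h1, (hE u.1 (List.mem_toFinset.1 u.2) v.1 (List.mem_toFinset.1 v.2)
        (fun h => h1 (Subtype.ext h))).2 h2⟩
    · rintro ⟨h1, h2⟩
      exact ⟨h1, (hE u.1 (List.mem_toFinset.1 u.2) v.1 (List.mem_toFinset.1 v.2)
        (fun h => h1 (Subtype.ext h))).1 h2⟩
  exact ⟨conic_of_poly _ adj _ hG, poly_of_conic _ adj _ hG⟩

end Pool.Agent.Helper30.G4
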