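import Pool.Agent.Helper22.G4.GenFam
import Pool.Agent.Helper22.G4.St.A2
import Pool.Agent.Helper22.G4.St.A4
import Pool.Agent.Helper22.G4.St.G2

/-! # G4-G3: stacking one of the two pyramids over each flat -/

namespace Pool.Agent.Helper30.G4

open Submodule Pool.Agent.Helper22.G4

variable {α φ : Type} [DecidableEq α] [DecidableEq φ]

/-- the pyramid over a flat as a finite set -/
def PsF (R : Flat α φ) : Finset (W α φ) := insert (W.x R.2.1) (R.1.map W.v).toFinset

theorem coe_PsF (R : Flat α φ) : (PsF R : Set (W α φ)) = Ps R := by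
  ext w
  simp only [PsF, Ps, Finset.coe_insert, Set.mem_insert_iff, Finset.mem_coe, List.mem_toFinset,
    List.mem_map, Set.mem_union, Set.mem_setOf_eq, Set.mem_singleton_iff]
  constructor
  · rintro (h | ⟨a, ha, h⟩)
    · exact Or.inr h
    · exact Or.inl ⟨a, ha, h.symm⟩
  · rintro (⟨a, ha, h⟩ | h)
    · exact Or.inr ⟨a, ha, h.symm⟩
    · exact Or.inl h

/-- the sets on which the `p`-vertices are stacked -/
def T2 : W α φ → Finset (W α φ)
  | .inr (.inr (.inl R)) => PsF R
  | _ => ∅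

theorem T2_p (R : Flat α φ) : T2 (W.p R) = PsF R := rfl

theorem Ps_mem_fam1 {D : Data α φ} (hD : D.Good) {R : Flat α φ} (hR : R ∈ D.flats) :
    Ps R ∈ D.fam1 := by
  refine ⟨R.2.1, hD.mem1 R hR, R.2.2, hD.mem2 R hR, hD.ne R hR, ?_⟩
  ext w
  simp only [Ps, Data.Fs, Set.mem_union, Set.mem_setOf_eq, Set.mem_inter_iff,
    Set.mem_singleton_iff]
  constructor
  · rintro (⟨a, ha, rfl⟩ | h)
    · have hv := hD.sub R hR a ha
      have := (hD.inter R hR a hv).2 ha
      exact Or.inl ⟨⟨a, hv, this.1, rfl⟩, ⟨a, hv, this.2, rfl⟩⟩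
    · exact Or.inr h
  · rintro (⟨⟨a, hv, h1, rfl⟩, ⟨b, hv', h2, h3⟩⟩ | h)
    · have hab : a = b := by simpa [W.v] using h3
      subst hab
      exact Or.inl ⟨a, (hD.inter R hR a hv).1 ⟨h1, h2⟩, rfl⟩
    · exact Or.inr h

/-- In a list without repetitions of length at least four the first and the third element are not
consecutive in the cyclic order. -/
theorem exists_diag (l : List α) (hl : 4 ≤ l.length) (hnd : l.Nodup) :
    ∃ a ∈ l, ∃ b ∈ l, a ≠ b ∧ (a, b) ∉ cycPairs l ∧ (b, a) ∉ cycPairs l := by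
  match l, hl, hnd with
  | a :: b :: c :: d :: t, _, hnd =>
    refine ⟨a, by simp, c, by simp, ?_, ?_, ?_⟩
    · rintro rfl
      simp at hnd
    · intro h
      simp only [cycPairs, List.tail_cons, List.cons_append, List.zip_cons_cons, List.mem_cons,
        List.take_succ_cons, List.take_zero] at h
      simp only [List.nodup_cons, List.mem_cons, not_or] at hnd
      obtain ⟨⟨hab, hac, had, hat⟩, ⟨hbc, hbd, hbt⟩, ⟨hcd, hct⟩, hdt, hnt⟩ := hnd
      rcases h with h | h | h | h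
      · simp only [Prod.mk.injEq] at h; exact hbc h.2.symm
      · simp only [Prod.mk.injEq] at h; exact hab h.1
      · simp only [Prod.mk.injEq] at h; exact hac h.1
      · have := (List.of_mem_zip h).1
        simp only [List.mem_cons] at this
        rcases this with h | h
        · exact had h
        · exact hat h
    · intro h
      simp only [cycPairs, List.tail_cons, List.cons_append, List.zip_cons_cons, List.mem_cons,
        List.take_succ_cons, List.take_zero] at h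
      simp only [List.nodup_cons, List.mem_cons, not_or] at hnd
      obtain ⟨⟨hab, hac, had, hat⟩, ⟨hbc, hbd, hbt⟩, ⟨hcd, hct⟩, hdt, hnt⟩ := hnd
      rcases h with h | h | h | h
      · simp only [Prod.mk.injEq] at h; exact hac h.1.symm
      · simp only [Prod.mk.injEq] at h; exact hbc h.1.symm
      · simp only [Prod.mk.injEq] at h; exact had h.2
      · have := (List.of_mem_zip h).1
        simp only [List.mem_cons] at this
        rcases this with h | h
        · exact hcd h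
        · exact hct h

theorem Ps_max {D : Data α φ} (hD : D.Good) {R : Flat α φ} (hR : R ∈ D.flats)
    {Z : Set (W α φ)} (hZ : Z ∈ D.fam1) (hsub : Ps R ⊆ Z) : Z = Ps R := by
  obtain ⟨f, hf, g, hg, hfg, rfl⟩ := hZ
  have hx : W.x R.2.1 ∈ (D.Fs f ∩ D.Fs g) ∪ {W.x f} := hsub (Or.inr rfl)
  have hf1 : f = R.2.1 := by
    rcases hx with ⟨⟨a, _, _, h⟩, _⟩ | h
    · simp [W.x, W.v] at h
    · have : R.2.1 = f := by simpa [W.x] using h
      exact this.symm
  have hgR : ∀ a ∈ R.1, D.mem g a := by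
    intro a ha
    have : W.v a ∈ (D.Fs f ∩ D.Fs g) ∪ {W.x f} := hsub (Or.inl ⟨a, ha, rfl⟩)
    rcases this with ⟨_, ⟨b, _, hb, h⟩⟩ | h
    · have : a = b := by simpa [W.v] using h
      exact this ▸ hb
    · simp [W.x, W.v] at h
  obtain ⟨a, ha, b, hb, hab, h1, h2⟩ := exists_diag R.1 (hD.len R hR) (hD.nd R hR)
  have hg2 : g = R.2.2 := by
    rcases hD.diag R hR a ha b hb hab h1 h2 g hg (hgR a ha) (hgR b hb) with h | h
    · exact absurd (hf1.trans h.symm) hfg
    · exact h
  subst hf1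
  subst hg2
  ext w
  simp only [Ps, Data.Fs, Set.mem_union, Set.mem_setOf_eq, Set.mem_inter_iff,
    Set.mem_singleton_iff]
  constructor
  · rintro (⟨⟨a, hv, h1, rfl⟩, ⟨b, hv', h2, h3⟩⟩ | h)
    · have hab : a = b := by simpa [W.v] using h3
      subst hab
      exact Or.inl ⟨a, (hD.inter R hR a hv).1 ⟨h1, h2⟩, rfl⟩
    · exact Or.inr h
  · rintro (⟨a, ha, rfl⟩ | h)
    · have hv := hD.sub R hR a ha
      have := (hD.inter R hR a hv).2 ha
      exact Or.inl ⟨⟨a, hv, this.1, rfl⟩, ⟨a, hv, this.2, rfl⟩⟩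
    · exact Or.inr h

theorem Ps_inj {D : Data α φ} (hD : D.Good) {R S : Flat α φ} (hR : R ∈ D.flats)
    (hS : S ∈ D.flats) (h : Ps R = Ps S) : R = S := by
  by_contra hne
  have hSR : ∀ a ∈ S.1, a ∈ R.1 := by
    intro a ha
    have : W.v a ∈ Ps R := by rw [h]; exact Or.inl ⟨a, ha, rfl⟩
    rcases this with ⟨b, hb, h⟩ | h
    · have : a = b := by simpa [W.v] using h
      exact this ▸ hb
    · simp [W.x, W.v] at h
  have hm1 : ∀ a ∈ R.1, D.mem R.2.1 a := fun a ha =>
    ((hD.inter R hR a (hD.sub R hR a ha)).2 ha).1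
  have hm2 : ∀ a ∈ R.1, D.mem R.2.2 a := fun a ha =>
    ((hD.inter R hR a (hD.sub R hR a ha)).2 ha).2
  have e1 : D.eIn R R.2.1 := by
    simp only [Data.eIn, List.all_eq_true]
    exact fun a ha => hm1 a (List.mem_of_mem_take ha)
  have e2 : D.eIn R R.2.2 := by
    simp only [Data.eIn, List.all_eq_true]
    exact fun a ha => hm2 a (List.mem_of_mem_take ha)
  have e3 : D.eIn S R.2.1 := by
    simp only [Data.eIn, List.all_eq_true]
    exact fun a ha => hm1 a (hSR a (List.mem_of_mem_take ha))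
  have e4 : D.eIn S R.2.2 := by
    simp only [Data.eIn, List.all_eq_true]
    exact fun a ha => hm2 a (hSR a (List.mem_of_mem_take ha))
  exact hD.ne R hR (hD.sep R hR S hS hne R.2.1 (hD.mem1 R hR) R.2.2 (hD.mem2 R hR) e1 e2 e3 e4)

theorem mem_B {D : Data α φ} {z : W α φ} (hz : z ∈ (D.flats.map W.p).toFinset) :
    ∃ R ∈ D.flats, z = W.p R := by
  simp only [List.mem_toFinset, List.mem_map] at hz
  obtain ⟨R, hR, h⟩ := hz
  exact ⟨R, hR, h.symm⟩

theorem p_mem_B {D : Data α φ} {R : Flat α φ} (hR : R ∈ D.flats) :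
    (W.p R : W α φ) ∈ (D.flats.map W.p).toFinset := by
  simp only [List.mem_toFinset, List.mem_map]
  exact ⟨R, hR, rfl⟩

theorem mem_l1 {D : Data α φ} {w : W α φ} (hw : w ∈ D.l1.toFinset) :
    (∃ a ∈ D.verts, w = W.v a) ∨ ∃ f ∈ D.fcodes, w = W.x f := by
  simp only [Data.l1, Data.l0, List.mem_toFinset, List.mem_append, List.mem_map] at hw
  rcases hw with ⟨a, ha, h⟩ | ⟨f, hf, h⟩
  · exact Or.inl ⟨a, ha, h.symm⟩
  · exact Or.inr ⟨f, hf, h.symm⟩

theorem v_mem_l1 {D : Data α φ} {a : α} (ha : a ∈ D.verts) :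
    (W.v a : W α φ) ∈ D.l1.toFinset := by
  simp only [Data.l1, Data.l0, List.mem_toFinset, List.mem_append, List.mem_map]
  exact Or.inl ⟨a, ha, rfl⟩

theorem x_mem_l1 {D : Data α φ} {f : φ} (hf : f ∈ D.fcodes) :
    (W.x f : W α φ) ∈ D.l1.toFinset := by
  simp only [Data.l1, Data.l0, List.mem_toFinset, List.mem_append, List.mem_map]
  exact Or.inr ⟨f, hf, rfl⟩

theorem l2_eq (D : Data α φ) :
    D.l2.toFinset = D.l1.toFinset ∪ (D.flats.map W.p).toFinset := by
  simp only [Data.l2, List.toFinset_append]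

theorem disj2 (D : Data α φ) : Disjoint D.l1.toFinset (D.flats.map W.p).toFinset := by
  rw [Finset.disjoint_left]
  intro w hw hw'
  obtain ⟨R, _, rfl⟩ := mem_B hw'
  rcases mem_l1 hw with ⟨a, _, h⟩ | ⟨f, _, h⟩
  · simp [W.p, W.v] at h
  · simp [W.p, W.x] at h

theorem addFam_fam1 {D : Data α φ} (hD : D.Good) :
    addFam D.fam1 (D.flats.map W.p).toFinset (fun z => {Z | Z = (T2 z : Set (W α φ))}) =
      D.fam2 := by
  ext Z
  simp only [addFam, Data.fam2, Set.mem_union, Set.mem_setOf_eq]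
  constructor
  · rintro (⟨h1, h2⟩ | ⟨z, hz, Z₁, h1, h2, Z₂, h3, h4, h5⟩)
    · refine Or.inl ⟨h1, fun R hR hZ => h2 (W.p R) (p_mem_B hR) ?_⟩
      rw [T2_p, coe_PsF]
      exact hZ
    · obtain ⟨R, hR, rfl⟩ := mem_B hz
      rw [T2_p, coe_PsF] at h2 h4
      subst h2
      exact Or.inr ⟨R, hR, Z₂, h3, h4, h5⟩
  · rintro (⟨h1, h2⟩ | ⟨R, hR, Y, hY, h1, h2⟩)
    · refine Or.inl ⟨h1, fun z hz hZ => ?_⟩
      obtain ⟨R, hR, rfl⟩ := mem_B hz
      rw [T2_p, coe_PsF] at hZ
      exact h2 R hR hZ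
    · refine Or.inr ⟨W.p R, p_mem_B hR, Ps R, Ps_mem_fam1 hD hR, ?_, Y, hY, ?_, h2⟩
      · rw [T2_p, coe_PsF]
      · rw [T2_p, coe_PsF]
        exact h1

/-- G4-G3 (second step: stacking one of the two pyramids over each flat). -/
theorem gen_l2 {D : Data α φ} (hD : D.Good) (h : Realizable D.l1.toFinset D.fam1) :
    Realizable D.l2.toFinset D.fam2 := by
  rw [l2_eq, ← addFam_fam1 hD]
  refine stack (disj2 D) h T2 ?_ ?_ ?_ ?_ ?_
  · intro z hz
    obtain ⟨R, hR, rfl⟩ := mem_B hz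
    rw [T2_p, coe_PsF]
    exact Ps_mem_fam1 hD hR
  · intro z hz Z hZ hs
    obtain ⟨R, hR, rfl⟩ := mem_B hz
    rw [T2_p, coe_PsF] at hs ⊢
    exact Ps_max hD hR hZ hs
  · intro z hz y hy hzy
    obtain ⟨R, hR, rfl⟩ := mem_B hz
    obtain ⟨S, hS, rfl⟩ := mem_B hy
    rw [T2_p, T2_p] at hzy
    have : Ps R = Ps S := by rw [← coe_PsF, ← coe_PsF, hzy]
    rw [Ps_inj hD hR hS this]
  · intro z hz
    obtain ⟨R, hR, rfl⟩ := mem_B hz
    rw [T2_p]
    exact ⟨W.x R.2.1, Finset.mem_insert_self _ _⟩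
  · intro z hz hTA
    obtain ⟨R, hR, rfl⟩ := mem_B hz
    rw [T2_p] at hTA
    have hx : (W.x R.2.2 : W α φ) ∈ PsF R := by
      rw [hTA]
      exact x_mem_l1 (hD.mem2 R hR)
    rw [← Finset.mem_coe, coe_PsF] at hx
    rcases hx with ⟨a, _, h⟩ | h
    · simp [W.x, W.v] at h
    · have : R.2.2 = R.2.1 := by simpa [W.x] using h
      exact hD.ne R hR this.symm

theorem mem_Ps_iff {D : Data α φ} {R : Flat α φ} {w : W α φ} (hw : w ∈ D.l1.toFinset) :
    w ∈ Ps R ↔ D.adjW (W.p R) w := by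
  rcases mem_l1 hw with ⟨a, _, rfl⟩ | ⟨f, _, rfl⟩
  · constructor
    · rintro (⟨b, hb, h⟩ | h)
      · have : a = b := by simpa [W.v] using h
        subst this
        exact hb
      · simp [W.x, W.v] at h
    · intro h
      exact Or.inl ⟨a, h, rfl⟩
  · constructor
    · rintro (⟨b, hb, h⟩ | h)
      · simp [W.x, W.v] at h
      · have : f = R.2.1 := by simpa [W.x] using h
        exact this
    · intro h
      have h' : f = R.2.1 := h
      subst h'
      exact Or.inr rfl

theorem adjW_p_comm {D : Data α φ} {R : Flat α φ} {w : W α φ} (hw : w ∈ D.l1.toFinset) :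
    D.adjW (W.p R) w ↔ D.adjW w (W.p R) := by
  rcases mem_l1 hw with ⟨a, _, rfl⟩ | ⟨f, _, rfl⟩ <;> exact Iff.rfl

omit [DecidableEq α] [DecidableEq φ] in
theorem FAdj_comm {V : Type*} {A : Finset V} {𝓩 : Set (Set V)} {u v : V} (h : FAdj A 𝓩 u v) :
    FAdj A 𝓩 v u := by
  intro t ht h1 h2
  obtain ⟨Z, hZ, hu, hv, ht'⟩ := h t ht h2 h1
  exact ⟨Z, hZ, hv, hu, ht'⟩

theorem card_PsF {D : Data α φ} (hD : D.Good) {R : Flat α φ} (hR : R ∈ D.flats) :
    3 ≤ (PsF R).card := by
  have h1 : (R.1.map (W.v (φ := φ))).toFinset.card = R.1.length := by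
    rw [List.toFinset_card_of_nodup, List.length_map]
    exact (hD.nd R hR).map (fun a b h => by simpa [W.v] using h)
  have h2 := Finset.card_le_card
    (Finset.subset_insert (W.x R.2.1) (R.1.map (W.v (φ := φ))).toFinset)
  have h3 := hD.len R hR
  unfold PsF
  omega

/-- G4-G3 -/
theorem gen_facts2 {D : Data α φ} (hD : D.Good) : StepFacts D.l2.toFinset D.fam2 D.adjW := by
  have F1 := gen_facts1 hD
  have key := add_adj (disj2 D) F1.sub (fun z => {Z | Z = (T2 z : Set (W α φ))})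
    (by
      intro z hz Z hZ
      obtain ⟨R, hR, rfl⟩ := mem_B hz
      rw [Set.mem_setOf_eq, T2_p, coe_PsF] at hZ
      rw [hZ]
      exact Ps_mem_fam1 hD hR)
    (by
      intro z hz
      exact ⟨_, rfl⟩)
    (by
      intro z hz y hy hne
      obtain ⟨R, hR, rfl⟩ := mem_B hz
      obtain ⟨S, hS, rfl⟩ := mem_B hy
      rw [Set.disjoint_left]
      intro Z h1 h2
      rw [Set.mem_setOf_eq, T2_p, coe_PsF] at h1 h2
      exact hne (by rw [Ps_inj hD hR hS (h1.symm.trans h2)]))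
    T2
    (by
      intro z hz
      obtain ⟨R, hR, rfl⟩ := mem_B hz
      rw [← Finset.coe_subset, T2_p, coe_PsF]
      exact F1.sub _ (Ps_mem_fam1 hD hR))
    (by
      intro z hz Z hZ
      rw [Set.mem_setOf_eq] at hZ
      rw [hZ])
    (by
      intro z hz
      obtain ⟨R, hR, rfl⟩ := mem_B hz
      have := card_PsF hD hR
      rw [T2_p]
      omega)
    (by
      intro z hz h2
      obtain ⟨R, hR, rfl⟩ := mem_B hz
      have := card_PsF hD hR
      rw [T2_p] at h2
      omega)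
    F1.vert
    (by
      have hsub : (D.verts.map (W.v (φ := φ))).toFinset ⊆ D.l1.toFinset := by
        intro w hw
        simp only [List.mem_toFinset, List.mem_map] at hw
        obtain ⟨a, ha, rfl⟩ := hw
        exact v_mem_l1 ha
      have h1 : (D.verts.map (W.v (φ := φ))).toFinset.card = D.verts.length := by
        rw [List.toFinset_card_of_nodup, List.length_map]
        exact hD.vnd.map (fun a b h => by simpa [W.v] using h)
      have h2 := Finset.card_le_card hsub
      have h3 := hD.big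
      omega)
  rw [addFam_fam1 hD, ← l2_eq] at key
  obtain ⟨k1, k2, k3, k4, k5⟩ := key
  have hBA : ∀ R ∈ D.flats, ∀ u ∈ D.l1.toFinset,
      (FAdj D.l2.toFinset D.fam2 (W.p R) u ↔ D.adjW (W.p R) u) := by
    intro R hR u hu
    rw [k4 (W.p R) (p_mem_B hR) u hu, ← mem_Ps_iff hu, ← coe_PsF]
    constructor
    · rintro ⟨Z, hZ, h⟩
      rw [Set.mem_setOf_eq, T2_p] at hZ
      rwa [hZ] at h
    · intro h
      exact ⟨_, rfl, h⟩
  refine ⟨k1, k2, ?_⟩
  intro u hu w hw huw
  have hu' := hu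
  have hw' := hw
  rw [l2_eq, Finset.mem_union] at hu' hw'
  rcases hu' with hu' | hu'
  · rcases hw' with hw' | hw'
    · rw [k3 u hu' w hw' huw]
      exact F1.adj u hu' w hw' huw
    · obtain ⟨S, hS, rfl⟩ := mem_B hw'
      rw [← adjW_p_comm hu', ← hBA S hS u hu']
      exact ⟨FAdj_comm, FAdj_comm⟩
  · obtain ⟨R, hR, rfl⟩ := mem_B hu'
    rcases hw' with hw' | hw'
    · exact hBA R hR w hw'
    · obtain ⟨S, hS, rfl⟩ := mem_B hw'
      constructor
      · intro h
        exact absurd h (k5 _ hu' _ hw' huw)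
      · intro h
        exact absurd h (fun h => h)

end Pool.Agent.Helper30.G4
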