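import Pool.Agent.Helper22.G4.St.P1
import Pool.Agent.Helper22.G4.St.P2

/-! # G4-P3: a pointed cone lies in the cone spanned by the edges at a vertex -/

namespace Pool.Agent.Helper30.G4

open Submodule Pool.Agent.Helper22.G4

variable {V E : Type*} [AddCommGroup E] [Module ℝ E]

/-- every face through `z` other than `{z}` contains an edge at `z` -/
theorem exists_edge [DecidableEq V] {c : V → E} {A : Finset V} (hc : Conf c A) {z : V}
    (hz : z ∈ A) : ∀ (n : ℕ) (B : Finset V), B.card = n → FaceOn c A (B : Set V) → z ∈ B →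
      (∃ u ∈ B, u ≠ z) → ∃ t ∈ B, t ≠ z ∧ FaceOn c A {z, t} := by
  classical
  obtain ⟨-, fz, hfz0, hfz⟩ := hc.vert z hz
  have hfzpos : ∀ u ∈ A, u ≠ z → 0 < fz (c u) := by
    intro u hu huz
    refine lt_of_le_of_ne (hfz0 u hu) ?_
    intro h0
    exact huz (by simpa using (hfz u hu).1 h0.symm)
  have hfzz : fz (c z) = 0 := (hfz z hz).2 (by simp)
  intro n
  induction n using Nat.strong_induction_on with
  | _ n ih =>
    intro B hBn hB hzB hex
    have hBA : ∀ u ∈ B, u ∈ A := fun u hu => by
      have := hB.1 (Finset.mem_coe.2 hu)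
      simpa using this
    obtain ⟨w1, hw1, hw1z⟩ := hex
    by_cases huniq : ∀ u ∈ B, u ≠ z → u = w1
    · refine ⟨w1, hw1, hw1z, ?_⟩
      have : (B : Set V) = {z, w1} := by
        ext u
        simp only [Finset.mem_coe, Set.mem_insert_iff, Set.mem_singleton_iff]
        constructor
        · intro hu
          by_cases huz : u = z
          · exact Or.inl huz
          · exact Or.inr (huniq u hu huz)
        · rintro (rfl | rfl)
          · exact hzB
          · exact hw1
      rwa [this] at hB
    · push Not at huniq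
      obtain ⟨w2, hw2, hw2z, hw21⟩ := huniq
      -- the difference vector
      set d : E := (fz (c w1))⁻¹ • c w1 - (fz (c w2))⁻¹ • c w2 with hd
      have p1 := hfzpos w1 (hBA w1 hw1) hw1z
      have p2 := hfzpos w2 (hBA w2 hw2) hw2z
      have hdn : d ∉ span ℝ {c z} := by
        rw [mem_span_singleton]
        rintro ⟨lam, hlam⟩
        obtain ⟨-, f1, hf10, hf1⟩ := hc.vert w1 (hBA w1 hw1)
        obtain ⟨-, f2, hf20, hf2⟩ := hc.vert w2 (hBA w2 hw2)
        have pos1 : ∀ u ∈ A, u ≠ w1 → 0 < f1 (c u) := by
          intro u hu huz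
          refine lt_of_le_of_ne (hf10 u hu) ?_
          intro h0
          exact huz (by simpa using (hf1 u hu).1 h0.symm)
        have pos2 : ∀ u ∈ A, u ≠ w2 → 0 < f2 (c u) := by
          intro u hu huz
          refine lt_of_le_of_ne (hf20 u hu) ?_
          intro h0
          exact huz (by simpa using (hf2 u hu).1 h0.symm)
        have z1 : f1 (c w1) = 0 := (hf1 w1 (hBA w1 hw1)).2 (by simp)
        have z2 : f2 (c w2) = 0 := (hf2 w2 (hBA w2 hw2)).2 (by simp)
        have e1 := congrArg f1 hlam
        have e2 := congrArg f2 hlam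
        simp only [hd, map_smul, map_sub, smul_eq_mul, z1, z2, mul_zero, zero_sub, sub_zero]
          at e1 e2
        have q1 := pos1 z hz (Ne.symm hw1z)
        have q2 := pos2 z hz (Ne.symm hw2z)
        have q3 := pos1 w2 (hBA w2 hw2) hw21
        have q4 := pos2 w1 (hBA w1 hw1) (Ne.symm hw21)
        have r1 : 0 < (fz (c w2))⁻¹ * f1 (c w2) := mul_pos (inv_pos.2 p2) q3
        have r2 : 0 < (fz (c w1))⁻¹ * f2 (c w1) := mul_pos (inv_pos.2 p1) q4
        have s1 : lam < 0 := by
          by_contra h
          push Not at h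
          have := mul_nonneg h q1.le
          linarith
        have s2 : 0 < lam := by
          by_contra h
          push Not at h
          have := mul_nonneg (neg_nonneg.2 h) q2.le
          linarith
        linarith
      obtain ⟨l, hld, hlz⟩ : ∃ l : E →ₗ[ℝ] ℝ, l d ≠ 0 ∧ l (c z) = 0 := by
        obtain ⟨l, h1, h2⟩ := Submodule.exists_dual_map_eq_bot_of_notMem hdn inferInstance
        refine ⟨l, h1, ?_⟩
        have : l (c z) ∈ (span ℝ {c z}).map l := ⟨c z, mem_span_singleton_self _, rfl⟩
        rw [h2] at this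
        simpa using this
      have hne : (B.erase z).Nonempty := ⟨w1, Finset.mem_erase.2 ⟨hw1z, hw1⟩⟩
      obtain ⟨u0, hu0, hmin⟩ := Finset.exists_min_image (B.erase z)
        (fun u => l (c u) / fz (c u)) hne
      rw [Finset.mem_erase] at hu0
      set m : ℝ := l (c u0) / fz (c u0) with hm
      set B' : Finset V := B.filter (fun u => l (c u) = m * fz (c u)) with hB'
      have hB'f : FaceOn c B (B' : Set V) := by
        refine ⟨by rw [hB']; exact Finset.coe_subset.2 (Finset.filter_subset _ _), l - m • fz, ?_, ?_⟩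
        · intro u hu
          simp only [LinearMap.sub_apply, LinearMap.smul_apply, smul_eq_mul]
          by_cases huz : u = z
          · rw [huz, hlz, hfzz]; simp
          · have h1 := hmin u (Finset.mem_erase.2 ⟨huz, hu⟩)
            have h2 := hfzpos u (hBA u hu) huz
            rw [le_div_iff₀ h2] at h1
            linarith
        · intro u hu
          simp only [LinearMap.sub_apply, LinearMap.smul_apply, smul_eq_mul, hB',
            Finset.coe_filter, Set.mem_ofPred_eq]
          constructor
          · intro h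
            exact ⟨hu, by linarith⟩
          · rintro ⟨-, h⟩
            linarith
      have hzB' : z ∈ B' := by
        rw [hB', Finset.mem_filter]
        exact ⟨hzB, by rw [hlz, hfzz, mul_zero]⟩
      have hu0B' : u0 ∈ B' := by
        rw [hB', Finset.mem_filter]
        refine ⟨hu0.2, ?_⟩
        have h2 := hfzpos u0 (hBA u0 hu0.2) hu0.1
        rw [hm, div_mul_cancel₀ _ h2.ne']
      have hlt : B'.card < n := by
        rw [← hBn]
        refine Finset.card_lt_card ⟨Finset.filter_subset _ _, ?_⟩
        intro hsub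
        have h1 := hsub hw1
        have h2 := hsub hw2
        rw [hB', Finset.mem_filter] at h1 h2
        apply hld
        simp only [hd, map_sub, map_smul, smul_eq_mul]
        rw [h1.2, h2.2]
        field_simp
        ring
      obtain ⟨t, ht, htz, hte⟩ := ih B'.card hlt B' rfl (hB.trans hB'f) hzB' ⟨u0, hu0B', hu0.1⟩
      exact ⟨t, (Finset.mem_filter.1 ht).1, htz, hte⟩

/-- G4-P3 (the cone lies in the cone spanned by the edges at a vertex). -/
theorem core [DecidableEq V] {c : V → E} {A : Finset V} (hc : Conf c A) {z : V} (hz : z ∈ A)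
    {w : V} (hw : w ∈ A) :
    ∃ (a : ℝ) (b : V → ℝ), (∀ t ∈ A, 0 ≤ b t) ∧
      (∀ t ∈ A, b t ≠ 0 → t ≠ z ∧ FaceOn c A {z, t}) ∧ c w = a • c z + ∑ t ∈ A, b t • c t := by
  classical
  set N : Finset V := A.filter (fun t => t ≠ z ∧ FaceOn c A {z, t}) with hN
  rcases farkas (N.disjSum (Finset.univ : Finset Bool))
    (Sum.elim c (fun b : Bool => if b then c z else - c z)) (c w) with h | h
  · obtain ⟨b, hb0, hb⟩ := h
    refine ⟨b (Sum.inr true) - b (Sum.inr false), fun t => if t ∈ N then b (Sum.inl t) else 0,
      ?_, ?_, ?_⟩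
    · intro t _
      dsimp only
      split_ifs with htN
      · exact hb0 _ (Finset.inl_mem_disjSum.2 htN)
      · exact le_rfl
    · intro t _ hbt
      dsimp only at hbt
      split_ifs at hbt with htN
      · exact (Finset.mem_filter.1 htN).2
      · exact absurd rfl hbt
    · rw [hb, Finset.sum_disjSum]
      simp only [Sum.elim_inl, Sum.elim_inr, Fintype.univ_bool, ite_smul, zero_smul]
      rw [← Finset.sum_filter]
      have hf : A.filter (fun t => t ∈ N) = N := by
        ext t
        rw [Finset.mem_filter]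
        exact ⟨fun h => h.2, fun h => ⟨(Finset.mem_filter.1 h).1, h⟩⟩
      rw [hf, Finset.sum_pair (by decide)]
      simp only [if_true, Bool.false_eq_true, if_false]
      rw [sub_smul, smul_neg]
      abel
  · exfalso
    obtain ⟨g, hg0, hgw⟩ := h
    have hgN : ∀ t ∈ N, 0 ≤ g (c t) := fun t ht => by
      have := hg0 (Sum.inl t) (Finset.inl_mem_disjSum.2 ht)
      simpa using this
    have hgz : g (c z) = 0 := by
      have h1 := hg0 (Sum.inr true) (Finset.inr_mem_disjSum.2 (Finset.mem_univ _))
      have h2 := hg0 (Sum.inr false) (Finset.inr_mem_disjSum.2 (Finset.mem_univ _))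
      simp only [Sum.elim_inr, if_true, Bool.false_eq_true, if_false, map_neg] at h1 h2
      linarith
    have hwz : w ≠ z := by
      rintro rfl
      linarith
    obtain ⟨-, fz, hfz0, hfz⟩ := hc.vert z hz
    have hfzpos : ∀ u ∈ A, u ≠ z → 0 < fz (c u) := by
      intro u hu huz
      refine lt_of_le_of_ne (hfz0 u hu) ?_
      intro h0
      exact huz (by simpa using (hfz u hu).1 h0.symm)
    have hfzz : fz (c z) = 0 := (hfz z hz).2 (by simp)
    have hne : (A.erase z).Nonempty := ⟨w, Finset.mem_erase.2 ⟨hwz, hw⟩⟩
    obtain ⟨u0, hu0, hmin⟩ := Finset.exists_min_image (A.erase z)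
      (fun u => g (c u) / fz (c u)) hne
    rw [Finset.mem_erase] at hu0
    set m : ℝ := g (c u0) / fz (c u0) with hm
    have hmneg : m < 0 := by
      refine lt_of_le_of_lt (hmin w (Finset.mem_erase.2 ⟨hwz, hw⟩)) ?_
      exact div_neg_of_neg_of_pos hgw (hfzpos w hw hwz)
    set B : Finset V := A.filter (fun u => g (c u) = m * fz (c u)) with hB
    have hBf : FaceOn c A (B : Set V) := by
      refine ⟨by rw [hB]; exact Finset.coe_subset.2 (Finset.filter_subset _ _), g - m • fz, ?_, ?_⟩
      · intro u hu
        simp only [LinearMap.sub_apply, LinearMap.smul_apply, smul_eq_mul]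
        by_cases huz : u = z
        · rw [huz, hgz, hfzz]; simp
        · have h1 := hmin u (Finset.mem_erase.2 ⟨huz, hu⟩)
          have h2 := hfzpos u hu huz
          rw [le_div_iff₀ h2] at h1
          linarith
      · intro u hu
        simp only [LinearMap.sub_apply, LinearMap.smul_apply, smul_eq_mul, hB,
          Finset.coe_filter, Set.mem_ofPred_eq]
        constructor
        · intro h
          exact ⟨hu, by linarith⟩
        · rintro ⟨-, h⟩
          linarith
    have hzB : z ∈ B := by
      rw [hB, Finset.mem_filter]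
      exact ⟨hz, by rw [hgz, hfzz, mul_zero]⟩
    have hu0B : u0 ∈ B := by
      rw [hB, Finset.mem_filter]
      refine ⟨hu0.2, ?_⟩
      have h2 := hfzpos u0 hu0.2 hu0.1
      rw [hm, div_mul_cancel₀ _ h2.ne']
    obtain ⟨t, ht, htz, hte⟩ := exists_edge hc hz B.card B rfl hBf hzB ⟨u0, hu0B, hu0.1⟩
    rw [hB, Finset.mem_filter] at ht
    have h1 := hgN t (Finset.mem_filter.2 ⟨ht.1, htz, hte⟩)
    have h2 := hfzpos t ht.1 htz
    have h3 := mul_neg_of_neg_of_pos hmneg h2
    rw [ht.2] at h1
    linarith

end Pool.Agent.Helper30.G4
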